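import Mathlib

set_option autoImplicit false

namespace Pool.Agent.Results.MP_75202e_al.NoOrderedUniversal

universe u

/-- The isolator of a subgroup `H` of `D`: the smallest subgroup `I ≥ H` such that
`g ^ n ∈ I` with `n ≥ 1` implies `g ∈ I`. -/
def isolator {D : Type u} [Group D] (H : Subgroup D) : Subgroup D :=
  sInf {I : Subgroup D | H ≤ I ∧ ∀ (g : D) (n : ℕ), 0 < n → g ^ n ∈ I → g ∈ I}

/-- A group is divisible if every element has an `n`-th root for every `n ≥ 1`. -/
def IsDivisible (D : Type u) [Group D] : Prop :=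
  ∀ (d : D) (n : ℕ), 0 < n → ∃ x : D, x ^ n = d

/-- A minimal divisible completion of the ordered group `G`: a divisible ordered group `carrier`
(a group with a linear order invariant under left and right multiplication) with an o-embedding
`emb` of `G` (a strictly increasing homomorphism) such that the isolator of the image of `G` is
everything. -/
structure MinDivCompletion (G : Type u) [Group G] [LinearOrder G] where
  carrier : Type u
  [group : Group carrier]
  [order : LinearOrder carrier]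
  [left : MulLeftMono carrier]
  [right : MulRightMono carrier]
  emb : G →* carrier
  emb_strictMono : StrictMono emb
  divisible : IsDivisible carrier
  isolator_eq_top : isolator emb.range = ⊤

attribute [instance] MinDivCompletion.group MinDivCompletion.order MinDivCompletion.left
  MinDivCompletion.right

/-- The commutator subgroup is abelian. -/
def IsMetabelian (G : Type u) [Group G] : Prop :=
  ∀ x ∈ commutator G, ∀ y ∈ commutator G, x * y = y * x

section isolator

variable {D : Type u} [Group D]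

theorem le_isolator (H : Subgroup D) : H ≤ isolator H :=
  le_sInf fun _ hI => hI.1

theorem isolator_closed (H : Subgroup D) (g : D) (n : ℕ) (hn : 0 < n) (h : g ^ n ∈ isolator H) :
    g ∈ isolator H := by
  rw [isolator, Subgroup.mem_sInf] at h ⊢
  exact fun I hI => hI.2 g n hn (h I hI)

theorem isolator_le (H I : Subgroup D) (h1 : H ≤ I)
    (h2 : ∀ (g : D) (n : ℕ), 0 < n → g ^ n ∈ I → g ∈ I) : isolator H ≤ I :=
  sInf_le ⟨h1, h2⟩

end isolator

theorem root_unique {D : Type u} [Group D] [LinearOrder D] [MulLeftMono D] [MulRightMono D]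
    {n : ℕ} (hn : 0 < n) {x y : D} (h : x ^ n = y ^ n) : x = y :=
  (pow_left_strictMono (M := D) hn.ne').injective h

section subgroup

variable {D : Type u} [Group D] [LinearOrder D] [MulLeftMono D] [MulRightMono D]

instance subgroupMulLeftMono (S : Subgroup D) : MulLeftMono S :=
  ⟨fun c a b hab => by
    have h : (a : D) ≤ b := hab
    change (c : D) * a ≤ c * b
    exact mul_le_mul_right h (c : D)⟩

instance subgroupMulRightMono (S : Subgroup D) : MulRightMono S :=
  ⟨fun c a b hab => by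
    have h : (a : D) ≤ b := hab
    change (a : D) * c ≤ b * c
    exact mul_le_mul_left h (c : D)⟩

/-- The isolator of the image of an o-embedding in a divisible ordered group is a minimal
divisible completion. -/
def completionOfEmbedding {G : Type u} [Group G] [LinearOrder G] (e : G →* D)
    (he : StrictMono e) (hdiv : IsDivisible D) : MinDivCompletion G where
  carrier := isolator e.range
  emb := e.codRestrict (isolator e.range) fun g => le_isolator _ ⟨g, rfl⟩
  emb_strictMono := fun a b hab => he hab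
  divisible := by
    intro d n hn
    obtain ⟨x, hx⟩ := hdiv d n hn
    refine ⟨⟨x, isolator_closed _ x n hn ?_⟩, ?_⟩
    · rw [hx]; exact d.2
    · exact Subtype.ext hx
  isolator_eq_top := by
    rw [eq_top_iff]
    rintro ⟨x, hx⟩ -
    refine Subgroup.mem_sInf.2 ?_
    rintro I ⟨hI1, hI2⟩
    have h := isolator_le e.range (I.map (isolator e.range).subtype) ?_ ?_ hx
    · obtain ⟨y, hy, hyx⟩ := h
      have : y = ⟨x, hx⟩ := Subtype.ext hyx
      rwa [← this]
    · rintro _ ⟨g, rfl⟩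
      exact ⟨_, hI1 ⟨g, rfl⟩, rfl⟩
    · rintro g n hn ⟨y, hy, hyg⟩
      have hg : g ∈ isolator e.range := by
        refine isolator_closed _ g n hn ?_
        rw [← hyg]
        exact y.2
      refine ⟨⟨g, hg⟩, hI2 _ n hn ?_, rfl⟩
      have : (⟨g, hg⟩ : isolator e.range) ^ n = y := Subtype.ext hyg.symm
      rwa [this]

end subgroup

/-! ### The group `(ℝ × ℝ) ⋊ ℚ` -/

/-- The rate `c` with `exp (c / 2) = 1 + √2`. -/
noncomputable def rate : ℝ := 2 * Real.log (1 + Real.sqrt 2)

/-- Elements of the semidirect product `(ℝ × ℝ) ⋊ ℚ`. -/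
@[ext] structure T where
  q : ℚ
  x : ℝ
  y : ℝ

noncomputable def ea (q : ℚ) : ℝ := Real.exp (rate * q)
noncomputable def eb (q : ℚ) : ℝ := Real.exp (-(rate * q))

theorem ea_pos (q : ℚ) : 0 < ea q := Real.exp_pos _
theorem eb_pos (q : ℚ) : 0 < eb q := Real.exp_pos _
theorem ea_add (p q : ℚ) : ea (p + q) = ea p * ea q := by
  rw [ea, ea, ea, ← Real.exp_add]; congr 1; push_cast; ring
theorem eb_add (p q : ℚ) : eb (p + q) = eb p * eb q := by
  rw [eb, eb, eb, ← Real.exp_add]; congr 1; push_cast; ring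
theorem ea_zero : ea 0 = 1 := by simp [ea]
theorem eb_zero : eb 0 = 1 := by simp [eb]

theorem sqrt2_pos : (0 : ℝ) < Real.sqrt 2 := Real.sqrt_pos.2 two_pos
theorem sqrt2_sq : Real.sqrt 2 * Real.sqrt 2 = 2 := Real.mul_self_sqrt zero_le_two

theorem ea_half : ea (1 / 2) = 1 + Real.sqrt 2 := by
  have h : rate * ((1 / 2 : ℚ) : ℝ) = Real.log (1 + Real.sqrt 2) := by
    rw [rate]; push_cast; ring
  rw [ea, h, Real.exp_log]
  linarith [sqrt2_pos]

theorem eb_half : eb (1 / 2) = Real.sqrt 2 - 1 := by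
  have h : rate * ((1 / 2 : ℚ) : ℝ) = Real.log (1 + Real.sqrt 2) := by
    rw [rate]; push_cast; ring
  rw [eb, h, Real.exp_neg, Real.exp_log (by linarith [sqrt2_pos])]
  refine inv_eq_of_mul_eq_one_right ?_
  nlinarith [sqrt2_sq]

noncomputable instance : Group T where
  mul a b := ⟨a.q + b.q, a.x + ea a.q * b.x, a.y + eb a.q * b.y⟩
  one := ⟨0, 0, 0⟩
  inv a := ⟨-a.q, -(ea (-a.q) * a.x), -(eb (-a.q) * a.y)⟩
  mul_assoc a b c := by
    ext
    · change a.q + b.q + c.q = a.q + (b.q + c.q); ring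
    · change a.x + ea a.q * b.x + ea (a.q + b.q) * c.x = a.x + ea a.q * (b.x + ea b.q * c.x)
      rw [ea_add]; ring
    · change a.y + eb a.q * b.y + eb (a.q + b.q) * c.y = a.y + eb a.q * (b.y + eb b.q * c.y)
      rw [eb_add]; ring
  one_mul a := by
    ext
    · change 0 + a.q = a.q; ring
    · change 0 + ea 0 * a.x = a.x; rw [ea_zero]; ring
    · change 0 + eb 0 * a.y = a.y; rw [eb_zero]; ring
  mul_one a := by
    ext
    · change a.q + 0 = a.q; ring
    · change a.x + ea a.q * 0 = a.x; ring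
    · change a.y + eb a.q * 0 = a.y; ring
  inv_mul_cancel a := by
    ext
    · change -a.q + a.q = 0; ring
    · change -(ea (-a.q) * a.x) + ea (-a.q) * a.x = 0; ring
    · change -(eb (-a.q) * a.y) + eb (-a.q) * a.y = 0; ring

theorem mul_q (a b : T) : (a * b).q = a.q + b.q := rfl
theorem mul_x (a b : T) : (a * b).x = a.x + ea a.q * b.x := rfl
theorem mul_y (a b : T) : (a * b).y = a.y + eb a.q * b.y := rfl
theorem one_q : (1 : T).q = 0 := rfl
theorem one_x : (1 : T).x = 0 := rfl
theorem one_y : (1 : T).y = 0 := rfl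
theorem inv_q (a : T) : (a⁻¹).q = -a.q := rfl
theorem inv_x (a : T) : (a⁻¹).x = -(ea (-a.q) * a.x) := rfl
theorem inv_y (a : T) : (a⁻¹).y = -(eb (-a.q) * a.y) := rfl

/-- The embedding into the lexicographic product that defines the order with sign `e`. -/
def key (e : ℝ) (a : T) : ℚ ×ₗ (ℝ ×ₗ ℝ) := toLex (a.q, toLex (a.x, e * a.y))

theorem key_injective (e : ℝ) (he : e ≠ 0) : Function.Injective (key e) := by
  intro a b h
  have h1 : (a.q, toLex (a.x, e * a.y)) = (b.q, toLex (b.x, e * b.y)) := toLex.injective h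
  rw [Prod.mk.injEq] at h1
  have h2 : (a.x, e * a.y) = (b.x, e * b.y) := toLex.injective h1.2
  rw [Prod.mk.injEq] at h2
  exact T.ext h1.1 h2.1 (mul_left_cancel₀ he h2.2)

/-- The lexicographic order on `T` in which the last coordinate has sign `e`. -/
noncomputable def ord (e : ℝ) (he : e ≠ 0) : LinearOrder T :=
  LinearOrder.lift' (key e) (key_injective e he)

theorem key_lt_iff (e : ℝ) (a b : T) : key e a < key e b ↔
    a.q < b.q ∨ (a.q = b.q ∧ (a.x < b.x ∨ (a.x = b.x ∧ e * a.y < e * b.y))) := by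
  rw [key, key, Prod.Lex.toLex_lt_toLex, Prod.Lex.toLex_lt_toLex]

theorem ord_lt_iff (e : ℝ) (he : e ≠ 0) (a b : T) : @LT.lt T (ord e he).toLT a b ↔
    a.q < b.q ∨ (a.q = b.q ∧ (a.x < b.x ∨ (a.x = b.x ∧ e * a.y < e * b.y))) :=
  key_lt_iff e a b

theorem ord_left (e : ℝ) (he : e ≠ 0) : @MulLeftMono T _ (ord e he).toLE := by
  letI := ord e he
  refine ⟨fun c a b hab => ?_⟩
  rcases hab.eq_or_lt with rfl | hlt
  · exact le_rfl
  · apply le_of_lt
    change @LT.lt T (ord e he).toLT (c * a) (c * b)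
    have hlt' : @LT.lt T (ord e he).toLT a b := hlt
    rw [ord_lt_iff] at hlt' ⊢
    rw [mul_q, mul_q, mul_x, mul_x, mul_y, mul_y]
    rcases hlt' with h | ⟨h, h1 | ⟨h', h''⟩⟩
    · left; linarith
    · right
      refine ⟨by rw [h], Or.inl ?_⟩
      have := mul_lt_mul_of_pos_left h1 (ea_pos c.q)
      linarith
    · right
      refine ⟨by rw [h], Or.inr ⟨by rw [h'], ?_⟩⟩
      have := mul_lt_mul_of_pos_left h'' (eb_pos c.q)
      nlinarith

theorem ord_right (e : ℝ) (he : e ≠ 0) : @MulRightMono T _ (ord e he).toLE := by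
  letI := ord e he
  refine ⟨fun c a b hab => ?_⟩
  rcases hab.eq_or_lt with rfl | hlt
  · exact le_rfl
  · apply le_of_lt
    change @LT.lt T (ord e he).toLT (a * c) (b * c)
    have hlt' : @LT.lt T (ord e he).toLT a b := hlt
    rw [ord_lt_iff] at hlt' ⊢
    rw [mul_q, mul_q, mul_x, mul_x, mul_y, mul_y]
    rcases hlt' with h | ⟨h, h1 | ⟨h', h''⟩⟩
    · left; linarith
    · right
      refine ⟨by rw [h], Or.inl ?_⟩
      rw [h]; linarith
    · right
      refine ⟨by rw [h], Or.inr ⟨by rw [h', h], ?_⟩⟩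
      rw [h]; nlinarith

theorem ea_one : ea 1 = 3 + 2 * Real.sqrt 2 := by
  have h : ea 1 = ea (1 / 2) * ea (1 / 2) := by rw [← ea_add]; norm_num
  rw [h, ea_half]; linear_combination sqrt2_sq

theorem eb_one : eb 1 = 3 - 2 * Real.sqrt 2 := by
  have h : eb 1 = eb (1 / 2) * eb (1 / 2) := by rw [← eb_add]; norm_num
  rw [h, eb_half]; linear_combination sqrt2_sq

theorem ea_neg_one : ea (-1) = 3 - 2 * Real.sqrt 2 := by
  have h : ea 1 * ea (-1) = 1 := by rw [← ea_add]; norm_num; exact ea_zero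
  have h2 : ea 1 * (3 - 2 * Real.sqrt 2) = 1 := by
    rw [ea_one]; linear_combination -4 * sqrt2_sq
  exact mul_left_cancel₀ (ea_pos 1).ne' (h.trans h2.symm)

theorem eb_neg_one : eb (-1) = 3 + 2 * Real.sqrt 2 := by
  have h : eb 1 * eb (-1) = 1 := by rw [← eb_add]; norm_num; exact eb_zero
  have h2 : eb 1 * (3 + 2 * Real.sqrt 2) = 1 := by
    rw [eb_one]; linear_combination -4 * sqrt2_sq
  exact mul_left_cancel₀ (eb_pos 1).ne' (h.trans h2.symm)

theorem e_int (n : ℤ) : ∃ u v : ℚ, ea n = u + v * Real.sqrt 2 ∧ eb n = u - v * Real.sqrt 2 := by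
  induction n using Int.induction_on with
  | zero => exact ⟨1, 0, by simp [ea_zero], by simp [eb_zero]⟩
  | succ n ih =>
    obtain ⟨u, v, h1, h2⟩ := ih
    refine ⟨3 * u + 4 * v, 2 * u + 3 * v, ?_, ?_⟩
    · push_cast at h1 ⊢
      rw [ea_add, h1, ea_one]; linear_combination (2 * (v : ℝ)) * sqrt2_sq
    · push_cast at h2 ⊢
      rw [eb_add, h2, eb_one]; linear_combination (2 * (v : ℝ)) * sqrt2_sq
  | pred n ih =>
    obtain ⟨u, v, h1, h2⟩ := ih
    refine ⟨3 * u - 4 * v, 3 * v - 2 * u, ?_, ?_⟩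
    · push_cast at h1 ⊢
      rw [sub_eq_add_neg, ea_add, h1, ea_neg_one]
      linear_combination (-2 * (v : ℝ)) * sqrt2_sq
    · push_cast at h2 ⊢
      rw [sub_eq_add_neg, eb_add, h2, eb_neg_one]
      linear_combination (-2 * (v : ℝ)) * sqrt2_sq

theorem T_pow (q : ℚ) (u v : ℝ) (n : ℕ) : (⟨q, u, v⟩ : T) ^ n =
    ⟨n * q, (∑ i ∈ Finset.range n, ea q ^ i) * u, (∑ i ∈ Finset.range n, eb q ^ i) * v⟩ := by
  induction n with
  | zero => 
    ext
    · rw [pow_zero, one_q]; simp
    · rw [pow_zero, one_x]; simp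
    · rw [pow_zero, one_y]; simp
  | succ n ih =>
    rw [pow_succ', ih]
    ext
    · rw [mul_q]; push_cast; ring
    · rw [mul_x, geom_sum_succ]; ring
    · rw [mul_y, geom_sum_succ (x := eb q)]; ring

theorem T_divisible : IsDivisible T := by
  intro d n hn
  have hpos : ∀ (f : ℚ → ℝ), (∀ q, 0 < f q) → ∀ q, 0 < ∑ i ∈ Finset.range n, f q ^ i := by
    intro f hf q
    exact Finset.sum_pos (fun i _ => pow_pos (hf q) i) ⟨0, Finset.mem_range.2 hn⟩
  have hn' : (n : ℚ) ≠ 0 := Nat.cast_ne_zero.2 hn.ne'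
  refine ⟨⟨d.q / n, d.x / ∑ i ∈ Finset.range n, ea (d.q / n) ^ i,
    d.y / ∑ i ∈ Finset.range n, eb (d.q / n) ^ i⟩, ?_⟩
  rw [T_pow]
  ext
  · change (n : ℚ) * (d.q / n) = d.q
    field_simp
  · change _ * (d.x / _) = d.x
    rw [mul_div_cancel₀]
    exact (hpos ea ea_pos _).ne'
  · change _ * (d.y / _) = d.y
    rw [mul_div_cancel₀]
    exact (hpos eb eb_pos _).ne'

/-! ### The metabelian ordered group -/

/-- The subgroup of all `(n, r + s√2, r - s√2)` with `n` an integer and `r`, `s` rational. -/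
noncomputable def G0 : Subgroup T where
  carrier := {a | ∃ (n : ℤ) (r s : ℚ), a.q = n ∧ a.x = r + s * Real.sqrt 2 ∧
    a.y = r - s * Real.sqrt 2}
  mul_mem' := by
    rintro a b ⟨n, r, s, h1, h2, h3⟩ ⟨m, r', s', h4, h5, h6⟩
    obtain ⟨u, v, hu, hv⟩ := e_int n
    refine ⟨n + m, r + (u * r' + 2 * v * s'), s + (u * s' + v * r'), ?_, ?_, ?_⟩
    · rw [mul_q, h1, h4]; push_cast; ring
    · rw [mul_x, h1, h2, h5, hu]; push_cast
      linear_combination (v : ℝ) * s' * sqrt2_sq
    · rw [mul_y, h1, h3, h6, hv]; push_cast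
      linear_combination (v : ℝ) * s' * sqrt2_sq
  one_mem' := ⟨0, 0, 0, by rw [one_q]; simp, by rw [one_x]; simp, by rw [one_y]; simp⟩
  inv_mem' := by
    rintro a ⟨n, r, s, h1, h2, h3⟩
    obtain ⟨u, v, hu, hv⟩ := e_int (-n)
    refine ⟨-n, -(u * r + 2 * v * s), -(u * s + v * r), ?_, ?_, ?_⟩
    · rw [inv_q, h1]; push_cast; ring
    · have : -a.q = ((-n : ℤ) : ℚ) := by rw [h1]; push_cast; ring
      rw [inv_x, this, h2, hu]; push_cast
      linear_combination (-(v : ℝ) * s) * sqrt2_sq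
    · have : -a.q = ((-n : ℤ) : ℚ) := by rw [h1]; push_cast; ring
      rw [inv_y, this, h3, hv]; push_cast
      linear_combination (-(v : ℝ) * s) * sqrt2_sq

theorem sqrt2_irr (r s : ℚ) (h : (r : ℝ) + s * Real.sqrt 2 = 0) : r = 0 ∧ s = 0 := by
  have hs : s = 0 := by
    by_contra hs
    have hs' : (s : ℝ) ≠ 0 := by exact_mod_cast hs
    refine irrational_sqrt_two ⟨-r / s, ?_⟩
    push_cast
    rw [div_eq_iff hs']
    linarith
  subst hs
  simp at h
  exact ⟨h, rfl⟩

/-- On `G0` the two orders agree. -/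
theorem lt_of_lt (e e' : ℝ) (he : e ≠ 0) (he' : e' ≠ 0) (a b : T) (ha : a ∈ G0) (hb : b ∈ G0)
    (h : @LT.lt T (ord e he).toLT a b) : @LT.lt T (ord e' he').toLT a b := by
  rw [ord_lt_iff] at h ⊢
  rcases h with h | ⟨h, h1 | ⟨h', h''⟩⟩
  · exact Or.inl h
  · exact Or.inr ⟨h, Or.inl h1⟩
  · exfalso
    obtain ⟨n, r, s, -, h2, h3⟩ := ha
    obtain ⟨m, r', s', -, h5, h6⟩ := hb
    rw [h2, h5] at h'
    have h7 : ((r - r' : ℚ) : ℝ) + ((s - s' : ℚ) : ℝ) * Real.sqrt 2 = 0 := by
      push_cast; linarith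
    obtain ⟨h8, h9⟩ := sqrt2_irr _ _ h7
    have h10 : r = r' := by linarith
    have h11 : s = s' := by linarith
    rw [h3, h6, h10, h11] at h''
    exact lt_irrefl _ h''

/-- The order of `G0`. -/
noncomputable def G0ord : LinearOrder G0 :=
  @Subtype.instLinearOrder T (ord 1 one_ne_zero) _

theorem G0left : @MulLeftMono G0 _ G0ord.toLE := by
  letI := ord 1 one_ne_zero
  have := ord_left 1 one_ne_zero
  have := ord_right 1 one_ne_zero
  exact subgroupMulLeftMono G0

theorem G0right : @MulRightMono G0 _ G0ord.toLE := by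
  letI := ord 1 one_ne_zero
  have := ord_left 1 one_ne_zero
  have := ord_right 1 one_ne_zero
  exact subgroupMulRightMono G0

theorem subtype_strictMono (e : ℝ) (he : e ≠ 0) :
    @StrictMono G0 T G0ord.toPreorder (ord e he).toPreorder G0.subtype := by
  intro a b hab
  exact lt_of_lt 1 e one_ne_zero he a b a.2 b.2 hab

/-- The completion of `G0` with the order of sign `e`. -/
noncomputable def comp (e : ℝ) (he : e ≠ 0) : @MinDivCompletion G0 _ G0ord :=
  @completionOfEmbedding T _ (ord e he) (ord_left e he) (ord_right e he) G0 _ G0ord G0.subtype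
    (subtype_strictMono e he) T_divisible

theorem commutator_le : commutator T ≤ 
    { carrier := {a : T | a.q = 0}
      mul_mem' := fun {a b} (ha : a.q = 0) (hb : b.q = 0) => by
        change (a * b).q = 0
        rw [mul_q, ha, hb, add_zero]
      one_mem' := one_q
      inv_mem' := fun {a} (ha : a.q = 0) => by
        change (a⁻¹).q = 0
        rw [inv_q, ha, neg_zero] } := by
  rw [commutator_def, Subgroup.commutator_le]
  intro a _ b _
  change (a * b * a⁻¹ * b⁻¹).q = 0
  rw [mul_q, mul_q, mul_q, inv_q, inv_q]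
  ring

theorem G0_metabelian : IsMetabelian G0 := by
  have h : ∀ x ∈ commutator G0, (x : T).q = 0 := by
    intro x hx
    have : (x : T) ∈ commutator T := by
      have h1 : (commutator G0).map G0.subtype ≤ commutator T := by
        rw [commutator_def, commutator_def, Subgroup.map_commutator]
        exact Subgroup.commutator_mono le_top le_top
      exact h1 ⟨x, hx, rfl⟩
    exact commutator_le this
  intro x hx y hy
  apply Subtype.ext
  change (x : T) * y = y * x
  ext
  · rw [mul_q, mul_q, add_comm]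
  · rw [mul_x, mul_x, h x hx, h y hy, ea_zero]; ring
  · rw [mul_y, mul_y, h x hx, h y hy, eb_zero]; ring

/-- The element `(0, 0, 2(√2 - 1))` lies in the isolator of `G0`. -/
noncomputable def wit : T := ⟨0, 0, 2 * (Real.sqrt 2 - 1)⟩

theorem wit_mem : wit ∈ isolator G0.subtype.range := by
  have hG : ∀ a ∈ G0, a ∈ isolator G0.subtype.range := fun a ha =>
    le_isolator _ ⟨⟨a, ha⟩, rfl⟩
  have hs : (⟨1 / 2, 0, 0⟩ : T) ∈ isolator G0.subtype.range := by
    refine isolator_closed _ _ 2 two_pos (hG _ ⟨1, 0, 0, ?_, ?_, ?_⟩)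
    · rw [T_pow]; norm_num
    · rw [T_pow]; simp
    · rw [T_pow]; simp
  have hm : (⟨0, 1, 1⟩ : T) ∈ isolator G0.subtype.range :=
    hG _ ⟨0, 1, 0, by simp, by simp, by simp⟩
  have hk : (⟨0, 1 + Real.sqrt 2, 1 - Real.sqrt 2⟩ : T) ∈ isolator G0.subtype.range :=
    hG _ ⟨0, 1, 1, by simp, by simp, by simp⟩
  have h : (⟨1 / 2, 0, 0⟩ : T) * ⟨0, 1, 1⟩ * (⟨1 / 2, 0, 0⟩ : T)⁻¹ *
      (⟨0, 1 + Real.sqrt 2, 1 - Real.sqrt 2⟩ : T)⁻¹ = wit := by
    have hq : (1 / 2 : ℚ) + (⟨1 / 2, 0, 0⟩ : T)⁻¹.q = 0 := by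
      rw [inv_q]; norm_num
    ext
    · simp only [mul_q, inv_q, wit]; norm_num
    · simp only [mul_x, mul_q, inv_x, wit, ea_half]
      norm_num [ea_zero, ea_half, hq]
    · simp only [mul_y, mul_q, inv_y, wit, eb_half]
      norm_num [eb_zero, eb_half, hq]
      ring
  rw [← h]
  exact Subgroup.mul_mem _ (Subgroup.mul_mem _ (Subgroup.mul_mem _ hs hm)
    (Subgroup.inv_mem _ hs)) (Subgroup.inv_mem _ hk)

theorem result : ∃ (G : Type) (_ : Group G) (_ : LinearOrder G),
    MulLeftMono G ∧ MulRightMono G ∧ IsMetabelian G ∧ Nonempty (MinDivCompletion G) ∧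
      ∀ K : MinDivCompletion G, ∃ H : MinDivCompletion G,
        ¬ ∃ φ : K.carrier →* H.carrier, Monotone φ ∧ ∀ g : G, φ (K.emb g) = H.emb g := by
  letI := G0ord
  have h1 : (1 : ℝ) ≠ 0 := one_ne_zero
  have h2 : (-1 : ℝ) ≠ 0 := by norm_num
  refine ⟨G0, inferInstance, G0ord, G0left, G0right, G0_metabelian, ⟨comp 1 h1⟩, ?_⟩
  intro K
  by_contra hcon
  push Not at hcon
  obtain ⟨φ₁, hm₁, he₁⟩ := hcon (comp 1 h1)
  obtain ⟨φ₂, hm₂, he₂⟩ := hcon (comp (-1) h2)
  let S : Subgroup T := isolator G0.subtype.range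
  let f₁ : K.carrier →* T := S.subtype.comp φ₁
  let f₂ : K.carrier →* T := S.subtype.comp φ₂
  have hroot : ∀ {n : ℕ}, 0 < n → ∀ {x y : T}, x ^ n = y ^ n → x = y := by
    intro n hn x y hxy
    letI := ord 1 h1
    have := ord_left 1 h1
    have := ord_right 1 h1
    exact root_unique hn hxy
  -- the two homomorphisms agree
  have hagree : ∀ k, f₁ k = f₂ k := by
    let I : Subgroup K.carrier := f₁.eqLocus f₂
    have h3 := isolator_le K.emb.range I ?_ ?_
    · rw [K.isolator_eq_top] at h3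
      exact fun k => h3 (Subgroup.mem_top k)
    · rintro _ ⟨g, rfl⟩
      change S.subtype (φ₁ (K.emb g)) = S.subtype (φ₂ (K.emb g))
      rw [he₁, he₂]
      rfl
    · intro g n hn hg
      have hg' : f₁ (g ^ n) = f₂ (g ^ n) := hg
      rw [map_pow, map_pow] at hg'
      exact hroot hn hg'
  -- the first homomorphism is onto
  have hsurj : wit ∈ f₁.range := by
    have h3 := isolator_le G0.subtype.range f₁.range ?_ ?_
    · exact h3 wit_mem
    · rintro _ ⟨g, rfl⟩
      refine ⟨K.emb g, ?_⟩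
      change S.subtype (φ₁ (K.emb g)) = _
      rw [he₁]
      rfl
    · rintro g n hn ⟨k, hk⟩
      obtain ⟨x, hx⟩ := K.divisible k n hn
      refine ⟨x, hroot hn ?_⟩
      rw [← map_pow, hx, hk]
  obtain ⟨k, hk⟩ := hsurj
  have hpos : (0 : ℝ) < 2 * (Real.sqrt 2 - 1) := by
    have : (1 : ℝ) < Real.sqrt 2 := Real.lt_sqrt_of_sq_lt (by norm_num)
    linarith
  have hlt1 : @LT.lt T (ord 1 h1).toLT 1 wit := by
    rw [ord_lt_iff]
    refine Or.inr ⟨rfl, Or.inr ⟨rfl, ?_⟩⟩
    rw [one_y]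
    change 1 * 0 < 1 * (2 * (Real.sqrt 2 - 1))
    linarith
  have hlt2 : @LT.lt T (ord (-1) h2).toLT wit 1 := by
    rw [ord_lt_iff]
    refine Or.inr ⟨rfl, Or.inr ⟨rfl, ?_⟩⟩
    rw [one_y]
    change -1 * (2 * (Real.sqrt 2 - 1)) < -1 * 0
    linarith
  rcases le_total 1 k with hle | hle
  · have h3 := hm₂ hle
    rw [map_one] at h3
    have h4 : @LE.le T (ord (-1) h2).toLE 1 (f₂ k) := h3
    rw [← hagree, hk] at h4
    exact absurd hlt2 (@not_lt_of_ge T (ord (-1) h2).toPreorder _ _ h4)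
  · have h3 := hm₁ hle
    rw [map_one] at h3
    have h4 : @LE.le T (ord 1 h1).toLE (f₁ k) 1 := h3
    rw [hk] at h4
    exact absurd hlt1 (@not_lt_of_ge T (ord 1 h1).toPreorder _ _ h4)

end Pool.Agent.Results.MP_75202e_al.NoOrderedUniversal
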