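import Mathlib

set_option autoImplicit false

namespace Pool.Agent.Results.MP_75202e_al.UniversalCompletion

universe u

/-- The isolator of a subgroup `H` of `D`: the smallest subgroup `I ≥ H` such that
`g ^ n ∈ I` with `n ≥ 1` implies `g ∈ I`. -/
def isolator {D : Type u} [Group D] (H : Subgroup D) : Subgroup D :=
  sInf {I : Subgroup D | H ≤ I ∧ ∀ (g : D) (n : ℕ), 0 < n → g ^ n ∈ I → g ∈ I}

/-- A group is divisible if every element has an `n`-th root for every `n ≥ 1`. -/
def IsDivisible (D : Type u) [Group D] : Prop :=
  ∀ (d : D) (n : ℕ), 0 < n → ∃ x : D, x ^ n = d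

/-- A minimal divisible completion of the ordered group `G`: a divisible ordered group `carrier`
(a group with a linear order invariant under left and right multiplication) with an o-embedding
`emb` of `G` (a strictly increasing homomorphism) such that the isolator of the image of `G` is
everything. -/
structure MinDivCompletion (G : Type u) [Group G] [LinearOrder G] where
  carrier : Type u
  [group : Group carrier]
  [order : LinearOrder carrier]
  [left : MulLeftMono carrier]
  [right : MulRightMono carrier]
  emb : G →* carrier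
  emb_strictMono : StrictMono emb
  divisible : IsDivisible carrier
  isolator_eq_top : isolator emb.range = ⊤

attribute [instance] MinDivCompletion.group MinDivCompletion.order MinDivCompletion.left
  MinDivCompletion.right

section isolator

variable {D : Type u} [Group D]

theorem le_isolator (H : Subgroup D) : H ≤ isolator H :=
  le_sInf fun _ hI => hI.1

theorem isolator_closed (H : Subgroup D) (g : D) (n : ℕ) (hn : 0 < n) (h : g ^ n ∈ isolator H) :
    g ∈ isolator H := by
  rw [isolator, Subgroup.mem_sInf] at h ⊢
  exact fun I hI => hI.2 g n hn (h I hI)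

theorem isolator_le (H I : Subgroup D) (h1 : H ≤ I)
    (h2 : ∀ (g : D) (n : ℕ), 0 < n → g ^ n ∈ I → g ∈ I) : isolator H ≤ I :=
  sInf_le ⟨h1, h2⟩

end isolator

theorem root_unique {D : Type u} [Group D] [LinearOrder D] [MulLeftMono D] [MulRightMono D]
    {n : ℕ} (hn : 0 < n) {x y : D} (h : x ^ n = y ^ n) : x = y :=
  (pow_left_strictMono (M := D) hn.ne').injective h

/-- Formal terms in the operations product, inverse, `n`-th root. -/
inductive RTerm (G : Type u) : Type u
  | of : G → RTerm G
  | one : RTerm G
  | mul : RTerm G → RTerm G → RTerm G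
  | inv : RTerm G → RTerm G
  | root : ℕ → RTerm G → RTerm G

section eval

variable {G : Type u} [Group G] [LinearOrder G]

/-- Evaluation of terms in a completion. -/
noncomputable def eval (H : MinDivCompletion G) : RTerm G → H.carrier
  | .of g => H.emb g
  | .one => 1
  | .mul s t => eval H s * eval H t
  | .inv s => (eval H s)⁻¹
  | .root n s => Classical.choose (H.divisible (eval H s) (n + 1) n.succ_pos)

theorem eval_root (H : MinDivCompletion G) (n : ℕ) (s : RTerm G) :
    (eval H (.root n s)) ^ (n + 1) = eval H s :=
  Classical.choose_spec (H.divisible (eval H s) (n + 1) n.succ_pos)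

theorem eval_surjective (H : MinDivCompletion G) : Function.Surjective (eval H) := by
  let I : Subgroup H.carrier :=
    { carrier := Set.range (eval H)
      mul_mem' := by
        rintro _ _ ⟨s, rfl⟩ ⟨t, rfl⟩
        exact ⟨.mul s t, rfl⟩
      one_mem' := ⟨.one, rfl⟩
      inv_mem' := by
        rintro _ ⟨s, rfl⟩
        exact ⟨.inv s, rfl⟩ }
  have h1 : H.emb.range ≤ I := by
    rintro _ ⟨g, rfl⟩
    exact ⟨.of g, rfl⟩
  have h2 : ∀ (g : H.carrier) (n : ℕ), 0 < n → g ^ n ∈ I → g ∈ I := by
    rintro g n hn ⟨s, hs⟩
    obtain ⟨m, rfl⟩ : ∃ m, n = m + 1 := ⟨n - 1, by omega⟩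
    refine ⟨.root m s, root_unique (Nat.succ_pos m) ?_⟩
    rw [eval_root, hs]
  have h3 := isolator_le _ I h1 h2
  rw [H.isolator_eq_top] at h3
  intro x
  exact h3 (Subgroup.mem_top x)

/-- The kernel relation of the evaluation. -/
def kerRel (H : MinDivCompletion G) : RTerm G → RTerm G → Prop :=
  fun s t => eval H s = eval H t

/-- If two completions have the same kernel relation there is an isomorphism over `G`. -/
theorem exists_hom_of_kerRel_eq (H H' : MinDivCompletion G) (h : kerRel H = kerRel H') :
    ∃ ψ : H.carrier →* H'.carrier, Function.Surjective ψ ∧ ∀ g, ψ (H.emb g) = H'.emb g := by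
  have key : ∀ s t, eval H s = eval H t → eval H' s = eval H' t := by
    intro s t hst
    have : kerRel H s t := hst
    rw [h] at this
    exact this
  choose sec hsec using eval_surjective H
  refine ⟨{ toFun := fun x => eval H' (sec x)
            map_one' := ?_
            map_mul' := ?_ }, ?_, ?_⟩
  · exact key (sec 1) .one (hsec 1)
  · intro x y
    refine key (sec (x * y)) (.mul (sec x) (sec y)) ?_
    rw [hsec]
    change x * y = eval H (sec x) * eval H (sec y)
    rw [hsec, hsec]
  · intro y
    obtain ⟨t, rfl⟩ := eval_surjective H' y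
    exact ⟨eval H t, key _ _ (hsec _)⟩
  · intro g
    exact key _ (.of g) (hsec _)

end eval

/-! ### The lexicographic product -/

section lex

variable {ι : Type u} [LinearOrder ι] [WellFoundedLT ι] (β : ι → Type u)
  [∀ i, Group (β i)] [∀ i, LinearOrder (β i)] [∀ i, MulLeftMono (β i)] [∀ i, MulRightMono (β i)]

instance lexMulLeftMono : MulLeftMono (Lex (∀ i, β i)) := by
  refine ⟨fun c a b hab => ?_⟩
  rcases hab.eq_or_lt with rfl | hlt
  · exact le_rfl
  · apply le_of_lt
    obtain ⟨i, hi, hlt⟩ := hlt
    refine ⟨i, fun j hj => ?_, ?_⟩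
    · change c j * a j = c j * b j
      rw [hi j hj]
    · change c i * a i < c i * b i
      exact mul_lt_mul_right hlt (c i)

instance lexMulRightMono : MulRightMono (Lex (∀ i, β i)) := by
  refine ⟨fun c a b hab => ?_⟩
  rcases hab.eq_or_lt with rfl | hlt
  · exact le_rfl
  · apply le_of_lt
    obtain ⟨i, hi, hlt⟩ := hlt
    refine ⟨i, fun j hj => ?_, ?_⟩
    · change a j * c j = b j * c j
      rw [hi j hj]
    · change a i * c i < b i * c i
      exact mul_lt_mul_left hlt (c i)

end lex

section subgroup

variable {D : Type u} [Group D] [LinearOrder D] [MulLeftMono D] [MulRightMono D]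

instance subgroupMulLeftMono (S : Subgroup D) : MulLeftMono S :=
  ⟨fun c a b hab => by
    have h : (a : D) ≤ b := hab
    change (c : D) * a ≤ c * b
    exact mul_le_mul_right h (c : D)⟩

instance subgroupMulRightMono (S : Subgroup D) : MulRightMono S :=
  ⟨fun c a b hab => by
    have h : (a : D) ≤ b := hab
    change (a : D) * c ≤ b * c
    exact mul_le_mul_left h (c : D)⟩

/-- The isolator of the image of an o-embedding in a divisible ordered group is a minimal
divisible completion. -/
def completionOfEmbedding {G : Type u} [Group G] [LinearOrder G] (e : G →* D)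
    (he : StrictMono e) (hdiv : IsDivisible D) : MinDivCompletion G where
  carrier := isolator e.range
  emb := e.codRestrict (isolator e.range) fun g => le_isolator _ ⟨g, rfl⟩
  emb_strictMono := fun a b hab => he hab
  divisible := by
    intro d n hn
    obtain ⟨x, hx⟩ := hdiv d n hn
    refine ⟨⟨x, isolator_closed _ x n hn ?_⟩, ?_⟩
    · rw [hx]; exact d.2
    · exact Subtype.ext hx
  isolator_eq_top := by
    rw [eq_top_iff]
    rintro ⟨x, hx⟩ -
    refine Subgroup.mem_sInf.2 ?_
    rintro I ⟨hI1, hI2⟩
    have h := isolator_le e.range (I.map (isolator e.range).subtype) ?_ ?_ hx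
    · obtain ⟨y, hy, hyx⟩ := h
      have : y = ⟨x, hx⟩ := Subtype.ext hyx
      rwa [← this]
    · rintro _ ⟨g, rfl⟩
      exact ⟨_, hI1 ⟨g, rfl⟩, rfl⟩
    · rintro g n hn ⟨y, hy, hyg⟩
      have hg : g ∈ isolator e.range := by
        refine isolator_closed _ g n hn ?_
        rw [← hyg]
        exact y.2
      refine ⟨⟨g, hg⟩, hI2 _ n hn ?_, rfl⟩
      have : (⟨g, hg⟩ : isolator e.range) ^ n = y := Subtype.ext hyg.symm
      rwa [this]

end subgroup

/-- Two homomorphisms between completions that agree on `G` are equal. -/
theorem hom_ext {G : Type u} [Group G] [LinearOrder G] (K H : MinDivCompletion G)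
    (φ ψ : K.carrier →* H.carrier) (h : ∀ g, φ (K.emb g) = ψ (K.emb g)) : φ = ψ := by
  have h3 := isolator_le K.emb.range (φ.eqLocus ψ) ?_ ?_
  · rw [K.isolator_eq_top] at h3
    exact MonoidHom.ext fun k => h3 (Subgroup.mem_top k)
  · rintro _ ⟨g, rfl⟩
    exact h g
  · intro g n hn hg
    have hg' : φ (g ^ n) = ψ (g ^ n) := hg
    rw [map_pow, map_pow] at hg'
    exact root_unique hn hg'

/-- A family of completions of `G` that meets every kernel relation has a common cover. -/
theorem exists_universal_of_family {G : Type u} [Group G] [LinearOrder G]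
    {ι : Type u} [Nonempty ι] (F : ι → MinDivCompletion G)
    (hF : ∀ H : MinDivCompletion G, ∃ i, kerRel (F i) = kerRel H) :
    ∃ K : MinDivCompletion G, ∀ H : MinDivCompletion G,
      ∃ φ : K.carrier →* H.carrier, Function.Surjective φ ∧ ∀ g : G, φ (K.emb g) = H.emb g := by
  classical
  obtain ⟨instLO, instWF⟩ := exists_wellFoundedLT ι
  let P : Type u := Lex (∀ i, (F i).carrier)
  let d : G →* P :=
    { toFun := fun g => toLex fun i => (F i).emb g
      map_one' := by
        funext i
        exact (F i).emb.map_one
      map_mul' := by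
        intro x y
        funext i
        exact (F i).emb.map_mul x y }
  have hd : StrictMono d := by
    intro a b hab
    let i₀ : ι := WellFounded.min (wellFounded_lt (α := ι)) Set.univ Set.univ_nonempty
    refine ⟨i₀, fun j hj => ?_, (F i₀).emb_strictMono hab⟩
    exact absurd hj ((wellFounded_lt (α := ι)).not_lt_min Set.univ (Set.mem_univ j))
  have hP : IsDivisible P := by
    intro x n hn
    choose y hy using fun i => (F i).divisible (x i) n hn
    refine ⟨toLex y, ?_⟩
    funext i
    exact hy i
  let K : MinDivCompletion G := completionOfEmbedding d hd hP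
  refine ⟨K, fun H => ?_⟩
  obtain ⟨i, hi⟩ := hF H
  obtain ⟨ψ, hψs, hψe⟩ := exists_hom_of_kerRel_eq (F i) H hi
  let π : K.carrier →* (F i).carrier :=
    { toFun := fun k => (k : isolator d.range).1 i
      map_one' := rfl
      map_mul' := fun _ _ => rfl }
  have hπe : ∀ g, π (K.emb g) = (F i).emb g := fun g => rfl
  have hπs : Function.Surjective π := by
    have h1 : (F i).emb.range ≤ π.range := by
      rintro _ ⟨g, rfl⟩
      exact ⟨K.emb g, hπe g⟩
    have h2 : ∀ (g : (F i).carrier) (n : ℕ), 0 < n → g ^ n ∈ π.range → g ∈ π.range := by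
      rintro g n hn ⟨k, hk⟩
      obtain ⟨x, hx⟩ := K.divisible k n hn
      refine ⟨x, root_unique hn ?_⟩
      rw [← map_pow, hx, hk]
    have h3 := isolator_le _ π.range h1 h2
    rw [(F i).isolator_eq_top] at h3
    intro x
    exact h3 (Subgroup.mem_top x)
  refine ⟨ψ.comp π, hψs.comp hπs, fun g => ?_⟩
  change ψ (π (K.emb g)) = H.emb g
  rw [hπe, hψe]

/-- **Main theorem.** Let `G` be an ordered group that admits an o-embedding into some divisible
ordered group. Then there is a minimal divisible completion `K` of `G` such that every minimal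
divisible completion `H` of `G` is the image of `K` under a (unique) surjective homomorphism that
is the identity on `G`. -/
theorem result (G : Type u) [Group G] [LinearOrder G] [MulLeftMono G] [MulRightMono G]
    (hG : ∃ (D : Type u) (_ : Group D) (_ : LinearOrder D) (_ : MulLeftMono D)
      (_ : MulRightMono D) (e : G →* D), StrictMono e ∧ IsDivisible D) :
    ∃ K : MinDivCompletion G, ∀ H : MinDivCompletion G,
      ∃ φ : K.carrier →* H.carrier, Function.Surjective φ ∧ (∀ g : G, φ (K.emb g) = H.emb g) ∧
        ∀ ψ : K.carrier →* H.carrier, (∀ g : G, ψ (K.emb g) = H.emb g) → ψ = φ := by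
  obtain ⟨D, _, _, _, _, e, he, hD⟩ := hG
  let H₀ : MinDivCompletion G := completionOfEmbedding e he hD
  have : Nonempty {r : RTerm G → RTerm G → Prop // ∃ H : MinDivCompletion G, kerRel H = r} :=
    ⟨⟨kerRel H₀, H₀, rfl⟩⟩
  obtain ⟨K, hK⟩ := exists_universal_of_family
    (ι := {r : RTerm G → RTerm G → Prop // ∃ H : MinDivCompletion G, kerRel H = r})
    (fun i => Classical.choose i.2) fun H => ⟨⟨kerRel H, H, rfl⟩,
      Classical.choose_spec (⟨H, rfl⟩ : ∃ H' : MinDivCompletion G, kerRel H' = kerRel H)⟩
  refine ⟨K, fun H => ?_⟩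
  obtain ⟨φ, hφ, hφe⟩ := hK H
  refine ⟨φ, hφ, hφe, fun ψ hψ => hom_ext K H ψ φ fun g => ?_⟩
  rw [hψ, hφe]

end Pool.Agent.Results.MP_75202e_al.UniversalCompletion
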